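import Mathlib
import Pool.Agent.K9h64.LG.Defs
import Pool.Agent.K9h64.LG.NotMember
import Pool.Agent.K9h64.LG.MemberGrid

set_option autoImplicit false

/-!
# A graph in SEG and in one-bend VPG which is not an intersection graph of L- and Gamma-shapes

The graph is the Cartesian product of a triangle and a complete graph on four vertices in which
every vertex is replaced by six pairwise non-adjacent twins. It has 72 vertices.

* Explicit segments (`Pool.Agent.K9h64.LG.seg_twinRook`) and explicit one-bend paths of the grid
  (`Pool.Agent.K9h64.LG.oneBend_twinRook`) represent it.
* Suppose that L-shapes and Gamma-shapes represent it. Two adjacent vertices of the small graph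
  cannot both have two twins all four of which have their corners on one vertical line, so one can
  choose a twin of every vertex such that adjacent vertices have corners with different abscissas
  (each vertex of the small graph has five neighbours and six twins). The orders of the abscissas
  and of the ordinates of the corners, with suitable ties, have two simple properties
  (`Pool.Agent.K9h64.LG.Good`), and an exhaustive search in which the vertices are inserted from
  left to right (`Pool.Agent.K9h64.LG.search`, evaluated by the kernel) finds no such orders.
-/

namespace Pool.Agent.Results.MP_34d506_co.TwinsOfRook

open Pool.Agent.K9h64.LG

/-- The graph `twinRook` on 72 vertices is a segment intersection graph and a one-bend VPG graph,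
but it is not an intersection graph of L-shapes and Gamma-shapes. -/
theorem result : Seg twinRook ∧ OneBend twinRook ∧ ¬ LGamma twinRook :=
  ⟨seg_twinRook, oneBend_twinRook, not_LGamma⟩

end Pool.Agent.Results.MP_34d506_co.TwinsOfRook
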